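import Pool.Agent.Helper69.RK.Defs

/-! Sticky Kakeya, Hausdorff form: passage from the entropy inequality to sets. -/

namespace Pool.Agent.Helper75.HP

open Finset MeasureTheory
open scoped ENNReal NNReal
open Pool.Agent.Helper69.RK (CH pr mass cel Yt ht)

noncomputable section

/-! ### entropy inequalities -/

/-- the entropy form of sticky Kakeya, unit cube (core theorem, helper66's table) -/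
def GapH (m : ℕ) : Prop :=
  ∀ ε : ℝ, 0 < ε → ∃ η : ℝ, 0 < η ∧ ∃ n0 : ℕ, ∀ n : ℕ, n0 ≤ n →
    ∀ (Ω ζ : Type) [Fintype Ω] (μ : Ω → ℝ) (Z : Ω → ζ) (a x : Ω → Fin m → ℝ) (t : Ω → ℕ),
      (∀ ω, 0 ≤ μ ω) → mass μ = 1 →
      (∀ ω i, 0 ≤ a ω i ∧ a ω i < 1) → (∀ ω i, 0 ≤ x ω i ∧ x ω i < 1) → (∀ ω, t ω < 2 ^ n) →
      (∀ k ≤ n, CH μ (fun ω => cel k (a ω)) (fun ω => (cel k (x ω), Z ω)) ≤ η * n) →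
      (1 - η) * n ≤ CH μ t (fun ω => (Z ω, cel n (a ω), cel n (x ω))) →
      CH μ (fun ω => cel n (x ω)) Z
        - CH μ (fun ω => cel n (Yt (ht n (t ω)) (a ω) (x ω))) (fun ω => (Z ω, t ω)) ≤ ε * n

/-- the same with `|a|, |x| ≤ R` and integer heights `|t| ≤ R 2 ^ n` -/
def GapR (m : ℕ) : Prop :=
  ∀ ε : ℝ, 0 < ε → ∃ η : ℝ, 0 < η ∧ ∀ R : ℕ, ∃ n0 : ℕ, ∀ n : ℕ, n0 ≤ n →
    ∀ (Ω ζ : Type) [Fintype Ω] (μ : Ω → ℝ) (Z : Ω → ζ) (a x : Ω → Fin m → ℝ) (t : Ω → ℤ),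
      (∀ ω, 0 ≤ μ ω) → mass μ = 1 →
      (∀ ω i, |a ω i| ≤ R) → (∀ ω i, |x ω i| ≤ R) → (∀ ω, |t ω| ≤ R * 2 ^ n) →
      (∀ k ≤ n, CH μ (fun ω => cel k (a ω)) (fun ω => (cel k (x ω), Z ω)) ≤ η * n) →
      (1 - η) * n ≤ CH μ t (fun ω => (Z ω, cel n (a ω), cel n (x ω))) →
      CH μ (fun ω => cel n (x ω)) Z
        - CH μ (fun ω => cel n (Yt ((t ω : ℝ) / 2 ^ n) (a ω) (x ω))) (fun ω => (Z ω, t ω)) ≤ ε * n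

def ST_RANGE : Prop := ∀ m : ℕ, GapH m → GapR m

/-- counting form: many points -/
def Count (m : ℕ) : Prop :=
  ∀ ε : ℝ, 0 < ε → ∃ η : ℝ, 0 < η ∧ ∀ (R : ℕ) (s : ℝ), 0 < s → ∃ n0 : ℕ, ∀ n : ℕ, n0 ≤ n →
    ∀ (E : Finset (Fin m → ℤ)) (p : (Fin m → ℤ) → ℝ) (a x : (Fin m → ℤ) → Fin m → ℝ)
      (T : (Fin m → ℤ) → Finset ℤ),
      (∀ u, 0 ≤ p u) → (2 : ℝ) ^ (-(η * n)) ≤ ∑ u ∈ E, p u →
      (∀ l ≤ n, ∀ v : Fin m → ℤ,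
        ∑ u ∈ E.filter (fun u => ∀ i, u i / 2 ^ (n - l) = v i), p u ≤ (2 : ℝ) ^ (-(s * l))) →
      (∀ u ∈ E, (∀ i, |a u i| ≤ R) ∧ (∀ i, |x u i| ≤ R) ∧ cel n (x u) = u) →
      (∀ l ≤ n, ((E.image (fun u => (cel l (a u), cel l (x u)))).card : ℝ)
        ≤ (2 : ℝ) ^ (s * l + η * n)) →
      (∀ u ∈ E, (∀ τ ∈ T u, |τ| ≤ R * 2 ^ n) ∧ (2 : ℝ) ^ ((1 - η) * n) ≤ ((T u).card : ℝ)) →
      (2 : ℝ) ^ ((s + 1 - ε) * n)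
        ≤ (((E.sigma T).image (fun q => (cel n (Yt ((q.2 : ℝ) / 2 ^ n) (a q.1) (x q.1)), q.2))).card : ℝ)

def ST_COUNT : Prop := ∀ m : ℕ, GapR m → Count m

/-! ### Frostman -/

def ST_FROST : Prop :=
  ∀ (m n : ℕ) (E : Finset (Fin m → ℤ)) (s c : ℝ), 0 ≤ s → 0 ≤ c →
    (∀ F : Finset (ℕ × (Fin m → ℤ)), (∀ q ∈ F, q.1 ≤ n) →
      (∀ u ∈ E, ∃ q ∈ F, ∀ i, u i / 2 ^ (n - q.1) = q.2 i) →
      c ≤ ∑ q ∈ F, (2 : ℝ) ^ (-(s * (q.1 : ℝ)))) →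
    ∃ p : (Fin m → ℤ) → ℝ, (∀ u, 0 ≤ p u) ∧ (∀ u, u ∉ E → p u = 0) ∧ c ≤ ∑ u ∈ E, p u ∧
      ∀ l ≤ n, ∀ v : Fin m → ℤ,
        ∑ u ∈ E.filter (fun u => ∀ i, u i / 2 ^ (n - l) = v i), p u ≤ (2 : ℝ) ^ (-(s * (l : ℝ)))

/-! ### dyadic content -/

/-- the dyadic cubes of `F` (level, index) cover `E` -/
def Cov {k : ℕ} (F : Set (ℕ × (Fin k → ℤ))) (E : Set (Fin k → ℝ)) : Prop :=
  ∀ y ∈ E, ∃ q ∈ F, cel q.1 y = q.2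

/-- sum of the `σ`-th powers of the sides -/
def cost {k : ℕ} (σ : ℝ) (F : Set (ℕ × (Fin k → ℤ))) : ℝ≥0∞ :=
  ∑' q : F, ENNReal.ofReal ((2 : ℝ) ^ (-(σ * (q.1.1 : ℝ))))

/-- dyadic content -/
def cont {k : ℕ} (σ : ℝ) (E : Set (Fin k → ℝ)) : ℝ≥0∞ :=
  ⨅ (F : Set (ℕ × (Fin k → ℤ))) (_ : Cov F E), cost σ F

/-- content of sets of real numbers -/
def cont1 (σ : ℝ) (E : Set ℝ) : ℝ≥0∞ := cont σ {y : Fin 1 → ℝ | y 0 ∈ E}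

def ST_SUBA : Prop :=
  ∀ (k : ℕ) (σ : ℝ), (∀ E E' : Set (Fin k → ℝ), E ⊆ E' → cont σ E ≤ cont σ E') ∧
    ∀ E : ℕ → Set (Fin k → ℝ), cont σ (⋃ i, E i) ≤ ∑' i, cont σ (E i)

def ST_POS : Prop :=
  ∀ (k : ℕ) (σ : ℝ) (E : Set (Fin k → ℝ)), 0 < σ → ENNReal.ofReal σ < dimH E → 0 < cont σ E

def ST_POS1 : Prop :=
  ∀ (σ : ℝ) (E : Set ℝ), 0 < σ → ENNReal.ofReal σ < dimH E → 0 < cont1 σ E

def ST_DYC : Prop :=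
  ∀ (k : ℕ) (d : ℝ) (K : Set (Fin k → ℝ)), 0 < d → dimH K < ENNReal.ofReal d → ∀ N : ℕ,
    ∃ F : Set (ℕ × (Fin k → ℤ)), (∀ q ∈ F, N ≤ q.1) ∧ Cov F K ∧ cost d F ≤ 1

/-! ### packing dimension -/

/-- packing dimension at most `s` (countable stable upper box dimension) -/
def PackLE {X : Type*} [PseudoMetricSpace X] (L : Set X) (s : ℝ) : Prop :=
  ∀ s' : ℝ, s < s' → ∃ Lk : ℕ → Set X, L ⊆ ⋃ k, Lk k ∧ ∀ k, ∃ C : ℝ, ∀ δ : ℝ, 0 < δ → δ ≤ 1 →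
    ∃ T : Finset X, (T.card : ℝ) ≤ C * δ ^ (-s') ∧ Lk k ⊆ ⋃ y ∈ T, Metric.closedBall y δ

def ST_PMAP : Prop :=
  ∀ (X Y : Type) [PseudoMetricSpace X] [PseudoMetricSpace Y] (L : Set X) (s : ℝ) (f : X → Y)
    (M : ℕ → Set X), PackLE L s → L ⊆ ⋃ j, M j →
    (∀ j, ∃ C : ℝ≥0, LipschitzOnWith C f (M j ∩ L)) → PackLE (f '' L) s

/-- a covering by balls bounds the number of cells -/
def ST_BOX : Prop :=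
  ∀ (m : ℕ) (s' C : ℝ) (L : Set ((Fin m → ℝ) × (Fin m → ℝ))),
    (∀ δ : ℝ, 0 < δ → δ ≤ 1 → ∃ T : Finset ((Fin m → ℝ) × (Fin m → ℝ)),
      (T.card : ℝ) ≤ C * δ ^ (-s') ∧ L ⊆ ⋃ y ∈ T, Metric.closedBall y δ) →
    ∀ j : ℕ, ((fun p : (Fin m → ℝ) × (Fin m → ℝ) => (cel j p.1, cel j p.2)) '' L).Finite ∧
      ((((fun p : (Fin m → ℝ) × (Fin m → ℝ) => (cel j p.1, cel j p.2)) '' L).ncard : ℕ) : ℝ)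
        ≤ 9 ^ m * C * (2 : ℝ) ^ (s' * j)

/-! ### pigeonhole -/

/-- the point of the line `p = (a, x)` at height `t` -/
def pnt {m : ℕ} (p : (Fin m → ℝ) × (Fin m → ℝ)) (t : ℝ) : Fin (m + 1) → ℝ :=
  Fin.snoc (fun i => p.1 i + t * p.2 i) t

/-- heights in `[-R, R]` whose point lies in a cube of level `n` of `F` -/
def hts {m : ℕ} (R : ℕ) (F : Set (ℕ × (Fin (m + 1) → ℤ))) (n : ℕ)
    (p : (Fin m → ℝ) × (Fin m → ℝ)) : Set ℝ :=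
  {t : ℝ | |t| ≤ R ∧ (n, cel n (pnt p t)) ∈ F}

def ST_PIG : Prop :=
  ∀ (m N R : ℕ) (s h c0 c1 : ℝ) (L : Set ((Fin m → ℝ) × (Fin m → ℝ))) (K : Set (Fin (m + 1) → ℝ))
    (F : Set (ℕ × (Fin (m + 1) → ℤ))), 1 ≤ N → 0 < c0 → 0 < c1 → Cov F K → (∀ q ∈ F, N ≤ q.1) →
    ENNReal.ofReal c0 ≤ cont s (Prod.snd '' L) →
    (∀ p ∈ L, ENNReal.ofReal c1 ≤ cont1 h {t : ℝ | |t| ≤ R ∧ pnt p t ∈ K}) →
    ∃ n : ℕ, N ≤ n ∧ ENNReal.ofReal (c0 / (4 * n ^ 2)) ≤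
      cont s (Prod.snd '' {p | p ∈ L ∧ ENNReal.ofReal (c1 / (4 * n ^ 2)) ≤ cont1 h (hts R F n p)})

/-- choice of a discrete family at level `n` -/
def ST_DISC : Prop :=
  ∀ (m n R : ℕ) (s h c c' : ℝ) (L : Set ((Fin m → ℝ) × (Fin m → ℝ)))
    (F : Set (ℕ × (Fin (m + 1) → ℤ))), 0 ≤ s → 0 ≤ h → 0 < c → 0 < c' →
    ENNReal.ofReal c ≤ cont s (Prod.snd '' L) →
    (∀ p ∈ L, (∀ i, |p.1 i| ≤ R) ∧ ∀ i, |p.2 i| ≤ R) →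
    (∀ p ∈ L, ENNReal.ofReal c' ≤ cont1 h (hts R F n p)) →
    ∃ (E : Finset (Fin m → ℤ)) (p : (Fin m → ℤ) → ℝ) (a x : (Fin m → ℤ) → Fin m → ℝ)
      (T : (Fin m → ℤ) → Finset ℤ),
      (∀ u, 0 ≤ p u) ∧ c ≤ ∑ u ∈ E, p u ∧
      (∀ l ≤ n, ∀ v : Fin m → ℤ,
        ∑ u ∈ E.filter (fun u => ∀ i, u i / 2 ^ (n - l) = v i), p u ≤ (2 : ℝ) ^ (-(s * (l : ℝ)))) ∧
      (∀ u ∈ E, (a u, x u) ∈ L ∧ cel n (x u) = u) ∧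
      (∀ u ∈ E, c' * (2 : ℝ) ^ (h * n) ≤ ((T u).card : ℝ) ∧
        ∀ τ ∈ T u, ∃ t : ℝ, t ∈ hts R F n (a u, x u) ∧ ⌊(2 : ℝ) ^ n * t⌋ = τ)

/-- the cells of the points computed with rounded heights, counted by the cubes of level `n` of `F` -/
def ST_NUM : Prop :=
  ∀ (m n R : ℕ) (d : ℝ) (F : Set (ℕ × (Fin (m + 1) → ℤ))) (E : Finset (Fin m → ℤ))
    (a x : (Fin m → ℤ) → Fin m → ℝ) (T : (Fin m → ℤ) → Finset ℤ), cost d F ≤ 1 →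
    (∀ u ∈ E, ∀ i, |x u i| ≤ R) →
    (∀ u ∈ E, ∀ τ ∈ T u, ∃ t : ℝ, t ∈ hts R F n (a u, x u) ∧ ⌊(2 : ℝ) ^ n * t⌋ = τ) →
    (((E.sigma T).image (fun q => (cel n (Yt ((q.2 : ℝ) / 2 ^ n) (a q.1) (x q.1)), q.2))).card : ℝ)
      ≤ (2 * R + 3) ^ m * (2 : ℝ) ^ (d * n)

/-! ### the theorem in a chart, and without coordinates -/

def ST_CHART : Prop :=
  ∀ (m : ℕ) (s : ℝ), 0 < s → Count m → ∀ L : Set ((Fin m → ℝ) × (Fin m → ℝ)), PackLE L s →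
    ENNReal.ofReal s ≤ dimH (Prod.snd '' L) → ∀ K : Set (Fin (m + 1) → ℝ),
    (∀ p ∈ L, 1 ≤ dimH {t : ℝ | pnt p t ∈ K}) → ENNReal.ofReal (s + 1) ≤ dimH K

def ST_FINAL : Prop :=
  ∀ (n : ℕ) (s : ℝ), 0 < s →
    ∀ L : Set (EuclideanSpace ℝ (Fin n) × EuclideanSpace ℝ (Fin n)),
    (∀ p ∈ L, ‖p.2‖ = 1) → PackLE L s → ENNReal.ofReal s ≤ dimH (Prod.snd '' L) →
    ∀ K : Set (EuclideanSpace ℝ (Fin n)),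
    (∀ p ∈ L, 1 ≤ dimH {t : ℝ | p.1 + t • p.2 ∈ K}) → ENNReal.ofReal (s + 1) ≤ dimH K

end

end Pool.Agent.Helper75.HP
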